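import Pool.Agent.Work.MP_bec1e1_FIN_h54.Env

/-!
# FIN: block BULK (no near-ties close to the last column)
-/

set_option autoImplicit false
set_option maxHeartbeats 400000

open Filter Topology
open scoped BigOperators

namespace Pool.Agent.LCSV

open Pool.Agent.LCSE

noncomputable section

namespace H54

variable {k : ℕ}

lemma lt_NN (hk : 2 ≤ k) (s : ℕ) : s < NN k s := by
  unfold NN
  calc s ≤ 4 * s := by omega
    _ < k ^ (4 * s) := Nat.lt_pow_self (by omega)

/-- upper tail for one fixed word -/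
lemma tail_y (hM : Stmt_MCD) (hL : Stmt_LIP) (hk : 0 < k) (x : List (Fin k)) (b : ℕ) (m t : ℝ)
    (ht : 0 ≤ t) (hm : (Ex k b fun y => (L x y : ℝ)) ≤ m) :
    (Ex k b fun y => ind (m + t ≤ (L x y : ℝ))) ≤ Real.exp (-(2 * t ^ 2 / b)) := by
  have h3 := (hM k 0 b (fun _ y => (L x y : ℝ)) 1 hk one_pos (by
    rintro _ _ _ h1 _ _ ⟨l₁, l₂, e, e', rfl, rfl⟩
    simp at h1) (by
    rintro _ y y' _ _ _ ⟨l₁, l₂, e, e', rfl, rfl⟩
    have := hL k l₁ l₂ x e e'
    rw [L_comm (l₁ ++ e :: l₂) x, L_comm (l₁ ++ e' :: l₂) x] at this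
    exact this) t ht).1
  simp only [Ex_zero] at h3
  have h4 : 2 * t ^ 2 / (1 ^ 2 * (((0 : ℕ) : ℝ) + (b : ℝ))) = 2 * t ^ 2 / b := by
    rw [one_pow, one_mul, Nat.cast_zero, zero_add]
  rw [h4] at h3
  exact (Ex_mono fun y _ => ind_mono fun h => by linarith).trans h3

/-- a near-tie of level `ℓ` close to the last column -/
lemma near_last {x₁ x₂ y : List (Fin k)} {ℓ : ℝ} {g J : ℕ} (hg : g ≤ y.length)
    (h : y.length < g + J) (hn : NT x₁ x₂ y ℓ g) : (L (x₁ ++ x₂) y : ℝ) ≤ L x₁ y + J + ℓ := by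
  have h1 : L x₁ (y.take g) ≤ L x₁ y := L_mono (List.Sublist.refl _) (List.take_sublist _ _)
  have h2 : L x₂ (y.drop g) ≤ (y.drop g).length := L_le_right _ _
  rw [List.length_drop] at h2
  have h3 : L x₁ (y.take g) + L x₂ (y.drop g) ≤ L x₁ y + J := by omega
  have h4 : (L x₁ (y.take g) : ℝ) + L x₂ (y.drop g) ≤ L x₁ y + J := by exact_mod_cast h3
  unfold NT at hn
  linarith

/-- few positions are above `(1 - δ) N` -/
lemma card_high (N : ℕ) {δ : ℝ} (hδ : 0 ≤ δ) (hδ1 : δ ≤ 1) :
    (∑ t ∈ Finset.range (N + 1), ind ((1 - δ) * N < (t : ℝ))) ≤ δ * N + 1 := by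
  classical
  have h1 : (∑ t ∈ Finset.range (N + 1), ind ((1 - δ) * N < (t : ℝ))) =
      (((Finset.range (N + 1)).filter fun t : ℕ => (1 - δ) * N < (t : ℝ)).card : ℝ) := by
    rw [Finset.card_filter]
    push_cast
    exact Finset.sum_congr rfl fun t _ => by rw [ind_eq_ite]
  rw [h1]
  set a : ℕ := ⌊(1 - δ) * (N : ℝ)⌋₊ with ha
  have hx : 0 ≤ (1 - δ) * (N : ℝ) := mul_nonneg (by linarith) (by positivity)
  have h2 : ((Finset.range (N + 1)).filter fun t : ℕ => (1 - δ) * N < (t : ℝ)) ⊆
      Finset.Ioc a N := by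
    intro t ht
    rw [Finset.mem_filter, Finset.mem_range] at ht
    rw [Finset.mem_Ioc]
    refine ⟨?_, by omega⟩
    have : (a : ℝ) < t := (Nat.floor_le hx).trans_lt ht.2
    exact_mod_cast this
  have h3 := Finset.card_le_card h2
  rw [Nat.card_Ioc] at h3
  have h4 : (1 - δ) * (N : ℝ) < a + 1 := Nat.lt_floor_add_one _
  have h5 : a ≤ N := by
    have : (a : ℝ) ≤ N := (Nat.floor_le hx).trans (by nlinarith [(Nat.cast_nonneg N : (0 : ℝ) ≤ N)])
    exact_mod_cast this
  have h6 : (((Finset.range (N + 1)).filter fun t : ℕ => (1 - δ) * N < (t : ℝ)).card : ℝ) ≤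
      ((N - a : ℕ) : ℝ) := by exact_mod_cast h3
  rw [Nat.cast_sub h5] at h6
  linarith

theorem stmt_BULK (hM : Stmt_MCD) (hL : Stmt_LIP) (hBB : Stmt_BB) (hLow : Stmt_LOW) :
    Stmt_BULK := by
  intro k C p q Pl Pu w ε hε J
  have hk := w.hk
  have hk0 : 0 < k := by omega
  -- it is enough to treat `ε ≤ 1`
  wlog hε1 : ε ≤ 1 generalizing ε
  · have h1 := this 1 one_pos le_rfl
    filter_upwards [h1] with s hs o θ h0 hθ
    exact (hs o θ h0 hθ).trans (le_of_not_ge hε1)
  have hp := w.p0
  have hp1 : p < 1 := by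
    have := w.pq
    have := w.q0
    have := w.phi.gam_lt
    linarith
  have hal : 0 ≤ al k := by unfold al; have := w.phi.gam_pos; linarith
  set e : ℝ := p * ε / 16 with he
  have he0 : 0 < e := by positivity
  have he1 : e ≤ ε / 16 := by rw [he]; nlinarith
  have hlim : Tendsto (fun s : ℕ => Real.exp (-(e ^ 2 / k * s))) atTop (𝓝 0) := by
    refine Real.tendsto_exp_neg_atTop_nhds_zero.comp ?_
    exact (tendsto_natCast_atTop_atTop).const_mul_atTop (by positivity)
  filter_upwards [hLow k C p q Pl Pu w e he0 1, hBB k hk w.phi 1 one_pos,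
    hlim.eventually_lt_const he0, eventually_ge_atTop 1,
    eventually_ge_atTop ⌈8 * (al k + 2 * J + 1) / (p * ε)⌉₊,
    eventually_ge_atTop ⌈4 / ε⌉₊] with s hs1 hs2 hs3 hs4 hs5 hs6 o θ h0 hθ
  have hg := gth_nn (o := o) hk h0 hθ
  obtain ⟨hb1, hb2, -, -, -⟩ := hs2
  set b := bb k s with hb
  obtain ⟨N, hN⟩ : ∃ N : ℕ, NN k s = N + 1 := ⟨NN k s - 1, by have := lt_NN hk s; omega⟩
  have hNs : s ≤ N := by have := lt_NN hk s; omega
  rw [hN, Nat.add_sub_cancel]
  have hsR : (1 : ℝ) ≤ s := by exact_mod_cast hs4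
  have hNR : (s : ℝ) ≤ N := by exact_mod_cast hNs
  have hNpos : (0 : ℝ) < N := by linarith
  -- flat direction
  have hflat : Flat k ((NN k s * s : ℕ) : ℝ) (b : ℝ) := by
    rw [w.phi.flat_iff _ _ (by positivity) (by positivity)]
    have hr := w.phi.rho_one
    have h1 : ((NN k s * s : ℕ) : ℝ) ≤ b := by exact_mod_cast hb1
    refine ⟨by push_cast; exact hb2, ?_⟩
    have hb0 : (0 : ℝ) ≤ b := by positivity
    nlinarith
  have hline := w.flat _ _ (by positivity) (by positivity) hflat
  rw [hN] at hline hb2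
  push_cast at hline hb2
  -- sizes
  have hN1 : 8 * (al k + 2 * J + 1) ≤ p * ε * N := by
    have h1 : 8 * (al k + 2 * J + 1) / (p * ε) ≤ s := (Nat.le_ceil _).trans (by exact_mod_cast hs5)
    rw [div_le_iff₀ (by positivity)] at h1
    have : (s : ℝ) * (p * ε) ≤ N * (p * ε) := mul_le_mul_of_nonneg_right hNR (by positivity)
    linarith
  have hN2 : 4 ≤ ε * N := by
    have h1 : 4 / ε ≤ s := (Nat.le_ceil _).trans (by exact_mod_cast hs6)
    rw [div_le_iff₀ (by positivity)] at h1
    nlinarith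
  have hbpos : (0 : ℝ) ≤ b := by positivity
  have hbk : (b : ℝ) ≤ 2 * k * (N * s) := by
    have h1 := w.phi.rho_lt
    have h2 : (0 : ℝ) ≤ ((N : ℝ) + 1) * s := by positivity
    have h3 : rho k * (((N : ℝ) + 1) * s) ≤ k * (((N : ℝ) + 1) * s) :=
      mul_le_mul_of_nonneg_right h1.le h2
    have h4 : ((N : ℝ) + 1) * s ≤ 2 * (N * s) := by nlinarith
    have h5 : (k : ℝ) * (((N : ℝ) + 1) * s) ≤ k * (2 * (N * s)) :=
      mul_le_mul_of_nonneg_left h4 (by positivity)
    linarith
  -- one position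
  have hone : ∀ t ≤ N, (Exc k s (gth k s o θ) t fun xs₁ => Exc k s (gth k s o θ) (N - t) fun xs₂ =>
      Ex k b fun y => ind (∃ g ≤ y.length, y.length < g + J * s ∧
        NT xs₁.flatten xs₂.flatten y (J * s) g)) ≤ 2 * e + ind ((1 - ε / 4) * N < (t : ℝ)) := by
    intro t ht
    by_cases hhigh : (1 - ε / 4) * N < (t : ℝ)
    · rw [ind_of hhigh]
      have : (Exc k s (gth k s o θ) t fun xs₁ => Exc k s (gth k s o θ) (N - t) fun xs₂ =>
        Ex k b fun y => ind (∃ g ≤ y.length, y.length < g + J * s ∧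
          NT xs₁.flatten xs₂.flatten y (J * s) g)) ≤ 1 :=
        Exc_le_const hg (gth_one hk s o θ) fun _ _ =>
          Exc_le_const hg (gth_one hk s o θ) fun _ _ => Ex_le_const hk0 fun _ _ => ind_le_one _
      linarith
    · rw [ind_of_not hhigh, add_zero]
      rw [not_lt] at hhigh
      have hlow := hs1 o θ h0 hθ N (by omega) (by omega)
      have e1 : N = t + (N - t) := by omega
      have hlow' : (Exc k s (gth k s o θ) t fun xs₁ => Exc k s (gth k s o θ) (N - t) fun xs₂ =>
          Ex k b fun y => ind ((L (xs₁.flatten ++ xs₂.flatten) y : ℝ) <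
            al k * (N * s + b) - e * (N * s))) ≤ e := by
        have h1 : Exc k s (gth k s o θ) (t + (N - t)) (fun xs => Ex k b fun y =>
            ind ((L xs.flatten y : ℝ) < al k * (N * s + b) - e * (N * s))) ≤ e := by
          rw [← e1]; exact hlow
        rw [Exc_append] at h1
        simpa only [List.flatten_append] using h1
      have htail : (Exc k s (gth k s o θ) t fun xs₁ => Exc k s (gth k s o θ) (N - t) fun _ =>
          Ex k b fun y => ind (p * (t * s) + q * b + e * (N * s) ≤ (L xs₁.flatten y : ℝ))) ≤ e := by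
        refine Exc_le_const hg (gth_one hk s o θ) fun xs₁ hx₁ =>
          Exc_le_const hg (gth_one hk s o θ) fun _ _ => ?_
        have h1 := w.A xs₁.flatten b
        rw [hx₁.flatten_length] at h1
        push_cast at h1
        have h2 := tail_y hM hL hk0 xs₁.flatten b (p * (t * s) + q * b) (e * (N * s))
          (by positivity) h1
        refine h2.trans (le_trans (Real.exp_le_exp.mpr ?_) hs3.le)
        rw [neg_le_neg_iff]
        by_cases hb0 : (b : ℝ) = 0
        · exfalso
          have h1 : ((NN k s * s : ℕ) : ℝ) ≤ b := by exact_mod_cast hb1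
          rw [hb0, hN] at h1
          push_cast at h1
          nlinarith
        have hb0' : (0 : ℝ) < b := lt_of_le_of_ne hbpos (Ne.symm hb0)
        rw [le_div_iff₀ hb0']
        have hkR : (0 : ℝ) < k := by exact_mod_cast hk0
        have h3 : e ^ 2 / k * s * b ≤ e ^ 2 / k * s * (2 * k * (N * s)) :=
          mul_le_mul_of_nonneg_left hbk (by positivity)
        have h4 : e ^ 2 / k * s * (2 * k * (N * s)) = 2 * (e ^ 2 * (N * s * s)) := by
          field_simp
        have h5 : (N : ℝ) * s * s ≤ (N * s) ^ 2 := by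
          have : (N : ℝ) * s * s ≤ N * s * (N * s) := by
            apply mul_le_mul_of_nonneg_left _ (by positivity)
            nlinarith
          nlinarith
        have h6 : e ^ 2 * (N * s * s) ≤ e ^ 2 * (N * s) ^ 2 :=
          mul_le_mul_of_nonneg_left h5 (by positivity)
        calc e ^ 2 / k * s * b ≤ _ := h3
          _ = _ := h4
          _ ≤ 2 * (e ^ 2 * (N * s) ^ 2) := by linarith
          _ = 2 * (e * (N * s)) ^ 2 := by ring
      have hsum : (Exc k s (gth k s o θ) t fun xs₁ => Exc k s (gth k s o θ) (N - t) fun xs₂ =>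
          Ex k b fun y => ind (∃ g ≤ y.length, y.length < g + J * s ∧
            NT xs₁.flatten xs₂.flatten y (J * s) g)) ≤
          Exc k s (gth k s o θ) t fun xs₁ => Exc k s (gth k s o θ) (N - t) fun xs₂ =>
          Ex k b fun y => (ind ((L (xs₁.flatten ++ xs₂.flatten) y : ℝ) <
            al k * (N * s + b) - e * (N * s)) +
            ind (p * (t * s) + q * b + e * (N * s) ≤ (L xs₁.flatten y : ℝ))) := by
        refine Exc_mono hg fun xs₁ _ => Exc_mono hg fun xs₂ _ => Ex_mono fun y _ => ?_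
        refine ind_le_add ?_
        rintro ⟨g, hg1, hg2, hg3⟩
        by_contra hc
        push Not at hc
        obtain ⟨hc1, hc2⟩ := hc
        have h1 := near_last hg1 hg2 hg3
        push_cast at h1
        have h2 : al k * (N * s + b) - e * (N * s) ≤
            p * (t * s) + q * b + e * (N * s) + J * s + J * s := by linarith
        have h3 : (t : ℝ) * s ≤ (1 - ε / 4) * N * s := mul_le_mul_of_nonneg_right hhigh (by positivity)
        have h4 : p * ((t : ℝ) * s) ≤ p * ((1 - ε / 4) * N * s) :=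
          mul_le_mul_of_nonneg_left h3 hp.le
        have h5 : 8 * (al k + 2 * J + 1) * s ≤ p * ε * N * s :=
          mul_le_mul_of_nonneg_right hN1 (by positivity)
        have h6 : 0 ≤ p * s := by positivity
        rw [he] at h2
        nlinarith
      refine hsum.trans ?_
      simp only [Ex_add, Exc_add]
      linarith
  rw [AV_zero, div_le_iff₀ (by positivity)]
  refine (Finset.sum_le_sum fun t ht => hone t (Nat.lt_succ_iff.mp (Finset.mem_range.mp ht))).trans ?_
  rw [Finset.sum_add_distrib, Finset.sum_const, Finset.card_range, nsmul_eq_mul]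
  have h7 := card_high N (δ := ε / 4) (by positivity) (by linarith)
  push_cast
  nlinarith

end H54

end

end Pool.Agent.LCSV
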