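import Pool.Agent.Work.MP_bec1e1_FIN_h54.Env

/-!
# FIN: block PR (price of replacing `B` cells by `j'` uniform cells)
-/

set_option autoImplicit false
set_option maxHeartbeats 400000

open Filter Topology
open scoped BigOperators

namespace Pool.Agent.LCSV

open Pool.Agent.LCSE

noncomputable section

namespace H54

variable {k : ℕ}

/-- mean value with `j s` uniform rows inserted -/
def Dm (k n : ℕ) (x₁ x₂ y : List (Fin k)) : ℝ := Ex k n fun r => (L (x₁ ++ r ++ x₂) y : ℝ)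

lemma Dm_split (hk : 0 < k) (n m : ℕ) (x₁ x₂ y : List (Fin k)) :
    Dm k (n + m) x₁ x₂ y - Dm k n x₁ x₂ y = Ex k n fun u => Ex k m fun r =>
      ((L ((x₁ ++ u) ++ r ++ x₂) y : ℝ) - L ((x₁ ++ u) ++ x₂) y) := by
  unfold Dm
  rw [Ex_append, ← Ex_sub]
  refine Ex_congr fun u _ => ?_
  rw [Ex_sub, Ex_const hk]
  simp only [List.append_assoc]

/-- a mean above `t + c` forces values above `t` -/
lemma mean_upper (hk : 0 < k) (n m : ℕ) (G : List (Fin k) → List (Fin k) → ℝ) (t c M : ℝ)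
    (ht : 0 ≤ t) (hc : 0 < c) (hM : 0 ≤ M) (hG : ∀ u r, r.length = m → G u r ≤ M) :
    ind (t + c < Ex k n fun u => Ex k m fun r => G u r) ≤
      (M / c) * Ex k n fun u => Ex k m fun r => ind (t < G u r) := by
  have h0 : 0 ≤ Ex k n fun u => Ex k m fun r => ind (t < G u r) :=
    Ex_nonneg fun u _ => Ex_nonneg fun r _ => ind_nonneg _
  by_cases h : t + c < Ex k n fun u => Ex k m fun r => G u r
  · rw [ind_of h]
    have h1 : (Ex k n fun u => Ex k m fun r => G u r) ≤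
        Ex k n fun u => Ex k m fun r => t + M * ind (t < G u r) := by
      refine Ex_mono fun u _ => Ex_mono fun r hr => ?_
      by_cases h2 : t < G u r
      · rw [ind_of h2, mul_one]; linarith [hG u r hr]
      · rw [ind_of_not h2, mul_zero]; linarith
    simp only [Ex_add, Ex_const hk, Ex_const_mul] at h1
    rw [div_mul_eq_mul_div, one_le_div hc]
    linarith
  · rw [ind_of_not h]; positivity

/-- a mean below `t - c` forces values below `t` -/
lemma mean_lower (hk : 0 < k) (n m : ℕ) (G : List (Fin k) → List (Fin k) → ℝ) (t c M : ℝ)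
    (hc : 0 < c) (htM : t ≤ M) (hM : 0 ≤ M) (hG : ∀ u r, 0 ≤ G u r) :
    ind ((Ex k n fun u => Ex k m fun r => G u r) < t - c) ≤
      (M / c) * Ex k n fun u => Ex k m fun r => ind (G u r < t) := by
  have h0 : 0 ≤ Ex k n fun u => Ex k m fun r => ind (G u r < t) :=
    Ex_nonneg fun u _ => Ex_nonneg fun r _ => ind_nonneg _
  by_cases h : (Ex k n fun u => Ex k m fun r => G u r) < t - c
  · rw [ind_of h]
    have h1 : (Ex k n fun u => Ex k m fun r => t - M * ind (G u r < t)) ≤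
        (Ex k n fun u => Ex k m fun r => G u r) := by
      refine Ex_mono fun u _ => Ex_mono fun r hr => ?_
      by_cases h2 : G u r < t
      · rw [ind_of h2, mul_one]; linarith [hG u r]
      · rw [ind_of_not h2, mul_zero]; linarith
    simp only [Ex_sub, Ex_const hk, Ex_const_mul] at h1
    rw [div_mul_eq_mul_div, one_le_div hc]
    linarith
  · rw [ind_of_not h]; positivity

/-- the environment part, more cells -/
lemma env_up (hS : Stmt_SHIFT) {C p q Pl Pu : ℝ} (w : World k C p q Pl Pu) (hU : PUPc k Pu)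
    {ε δ : ℝ} (hε : 0 < ε) (hδ : 0 < δ) (B m J : ℕ) (hm : 1 ≤ m) :
    ∀ᶠ s : ℕ in atTop, ∀ (o : Fin k) (θ : ℝ), 0 ≤ θ → θ ≤ thm k s →
    ∀ N : ℕ, NN k s ≤ N + J → N ≤ NN k s + J →
      AV k s o θ 0 N (bb k s) (fun x₁ _ x₂ y =>
        ind (Dm k (B * s) x₁ x₂ y + Pu * m * s + ε * s < Dm k (B * s + m * s) x₁ x₂ y)) ≤ δ := by
  have hk := w.hk
  have hk0 : 0 < k := by omega
  have hPu : 0 ≤ Pu := w.pr.pos.le.trans w.pr.le
  have hm' : (1 : ℝ) ≤ m := by exact_mod_cast hm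
  set R : ℝ := (m / (ε / 2)) * (2 ^ (B + m) * (1 + B)) with hR
  have hR0 : 0 < R := by positivity
  obtain ⟨ε₂, h2a, h2b, h2c⟩ : ∃ ε₂ : ℝ, 0 < ε₂ ∧ ε₂ * m ≤ ε / 2 ∧ R * ε₂ ≤ δ := by
    refine ⟨min (ε / 2 / m) (δ / R), lt_min (by positivity) (by positivity), ?_, ?_⟩
    · rw [← le_div_iff₀ (by positivity)]; exact min_le_left _ _
    · rw [mul_comm, ← le_div_iff₀ hR0]; exact min_le_right _ _
  filter_upwards [hU ε₂ h2a m (J + B), eventually_ge_atTop 1] with s hs hs1 o θ h0 hθ N hN1 hN2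
  have hs' : (1 : ℝ) ≤ s := by exact_mod_cast hs1
  have h3 := hs o θ h0 hθ (N + B) (by omega) (by omega)
  have h4 := AV_insert hS hk (o := o) h0 hθ B m N (bb k s) (fun x₁ r x₂ y => ind (
      (L (x₁ ++ x₂) y : ℝ) + (Pu + ε₂) * (m * s) < L (x₁ ++ r ++ x₂) y))
      fun _ _ _ _ => ind_nonneg _
  have h5 : AV k s o θ 0 N (bb k s) (fun x₁ _ x₂ y =>
        ind (Dm k (B * s) x₁ x₂ y + Pu * m * s + ε * s < Dm k (B * s + m * s) x₁ x₂ y)) ≤
      AV k s o θ 0 N (bb k s) (fun x₁ _ x₂ y => (m / (ε / 2)) *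
        Ex k (B * s) fun u => Ex k (m * s) fun r => ind (
      (L ((x₁ ++ u) ++ x₂) y : ℝ) + (Pu + ε₂) * (m * s) < L ((x₁ ++ u) ++ r ++ x₂) y)) := by
    refine AV_mono hk h0 hθ fun x₁ _ x₂ y _ _ _ => ?_
    have h6 := mean_upper hk0 (B * s) (m * s)
      (fun u r => ((L ((x₁ ++ u) ++ r ++ x₂) y : ℝ) - L ((x₁ ++ u) ++ x₂) y))
      (Pu * m * s + ε / 2 * s) (ε / 2 * s) (m * s) (by positivity) (by positivity)
      (by positivity) (by
        intro u r hr
        have := L_insert_le (x₁ ++ u) r x₂ y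
        rw [hr] at this
        have h' : (L ((x₁ ++ u) ++ r ++ x₂) y : ℝ) ≤ L ((x₁ ++ u) ++ x₂) y + (m * s : ℕ) := by
          exact_mod_cast this
        push_cast at h'
        linarith)
    rw [← Dm_split hk0] at h6
    have h7 : (m : ℝ) * s / (ε / 2 * s) = m / (ε / 2) := by
      field_simp
    rw [h7] at h6
    refine le_trans (ind_mono ?_) (h6.trans ?_)
    · intro h; linarith
    · refine mul_le_mul_of_nonneg_left ?_ (by positivity)
      refine Ex_mono fun u _ => Ex_mono fun r _ => ind_mono fun h => ?_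
      have : ε₂ * m * s ≤ ε / 2 * s := mul_le_mul_of_nonneg_right h2b (by positivity)
      nlinarith
  rw [AV_const_mul] at h5
  have hnn : 0 ≤ (m : ℝ) / (ε / 2) := by positivity
  calc _ ≤ _ := h5
    _ ≤ (m / (ε / 2)) * (2 ^ (B + m) * (1 + B) * ε₂) := by
        refine mul_le_mul_of_nonneg_left (h4.trans ?_) hnn
        exact mul_le_mul_of_nonneg_left h3 (by positivity)
    _ = R * ε₂ := by rw [hR]; ring
    _ ≤ δ := h2c

/-- the environment part, fewer cells -/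
lemma env_down (hS : Stmt_SHIFT) (hP : Stmt_PLO) {C p q Pl Pu : ℝ} (w : World k C p q Pl Pu)
    {ε δ : ℝ} (hε : 0 < ε) (hδ : 0 < δ) (B m J : ℕ) (hm : 1 ≤ m) :
    ∀ᶠ s : ℕ in atTop, ∀ (o : Fin k) (θ : ℝ), 0 ≤ θ → θ ≤ thm k s →
    ∀ N : ℕ, NN k s ≤ N + J → N ≤ NN k s + J →
      AV k s o θ 0 N (bb k s) (fun x₁ _ x₂ y =>
        ind (Dm k (B * s + m * s) x₁ x₂ y - Dm k (B * s) x₁ x₂ y < Pl * m * s - ε * s)) ≤ δ := by
  have hk := w.hk
  have hk0 : 0 < k := by omega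
  have hPl : 0 < Pl := w.pr.pos
  have hm' : (1 : ℝ) ≤ m := by exact_mod_cast hm
  set R : ℝ := (Pl * m / (ε / 2)) * (2 ^ (B + m) * (1 + B)) with hR
  have hR0 : 0 < R := by positivity
  obtain ⟨ε₂, h2a, h2b, h2c⟩ : ∃ ε₂ : ℝ, 0 < ε₂ ∧ ε₂ * m ≤ ε / 2 ∧ R * ε₂ ≤ δ := by
    refine ⟨min (ε / 2 / m) (δ / R), lt_min (by positivity) (by positivity), ?_, ?_⟩
    · rw [← le_div_iff₀ (by positivity)]; exact min_le_left _ _
    · rw [mul_comm, ← le_div_iff₀ hR0]; exact min_le_right _ _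
  filter_upwards [hP k C p q Pl Pu w ε₂ h2a m (J + B), eventually_ge_atTop 1]
    with s hs hs1 o θ h0 hθ N hN1 hN2
  have hs' : (1 : ℝ) ≤ s := by exact_mod_cast hs1
  have h3 := hs o θ h0 hθ (N + B) (by omega) (by omega)
  have h4 := AV_insert hS hk (o := o) h0 hθ B m N (bb k s) (fun x₁ r x₂ y => ind (
      (L (x₁ ++ r ++ x₂) y : ℝ) < L (x₁ ++ x₂) y + (Pl - ε₂) * (m * s)))
      fun _ _ _ _ => ind_nonneg _
  have h5 : AV k s o θ 0 N (bb k s) (fun x₁ _ x₂ y =>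
        ind (Dm k (B * s + m * s) x₁ x₂ y - Dm k (B * s) x₁ x₂ y < Pl * m * s - ε * s)) ≤
      AV k s o θ 0 N (bb k s) (fun x₁ _ x₂ y => (Pl * m / (ε / 2)) *
        Ex k (B * s) fun u => Ex k (m * s) fun r => ind (
      (L ((x₁ ++ u) ++ r ++ x₂) y : ℝ) < L ((x₁ ++ u) ++ x₂) y + (Pl - ε₂) * (m * s))) := by
    refine AV_mono hk h0 hθ fun x₁ _ x₂ y _ _ _ => ?_
    have h6 := mean_lower hk0 (B * s) (m * s)
      (fun u r => ((L ((x₁ ++ u) ++ r ++ x₂) y : ℝ) - L ((x₁ ++ u) ++ x₂) y))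
      (Pl * m * s - ε / 2 * s) (ε / 2 * s) (Pl * m * s) (by positivity) (by
        have : 0 ≤ ε / 2 * s := by positivity
        linarith) (by positivity) (by
        intro u r
        have := L_le_insert (x₁ ++ u) r x₂ y
        have h' : (L ((x₁ ++ u) ++ x₂) y : ℝ) ≤ L ((x₁ ++ u) ++ r ++ x₂) y := by
          exact_mod_cast this
        linarith)
    rw [← Dm_split hk0] at h6
    have h7 : Pl * m * s / (ε / 2 * s) = Pl * m / (ε / 2) := by
      field_simp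
    rw [h7] at h6
    refine le_trans (ind_mono ?_) (h6.trans ?_)
    · intro h; linarith
    · refine mul_le_mul_of_nonneg_left ?_ (by positivity)
      refine Ex_mono fun u _ => Ex_mono fun r _ => ind_mono fun h => ?_
      have : ε₂ * m * s ≤ ε / 2 * s := mul_le_mul_of_nonneg_right h2b (by positivity)
      nlinarith
  rw [AV_const_mul] at h5
  have hnn : 0 ≤ Pl * (m : ℝ) / (ε / 2) := by positivity
  calc _ ≤ _ := h5
    _ ≤ (Pl * m / (ε / 2)) * (2 ^ (B + m) * (1 + B) * ε₂) := by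
        refine mul_le_mul_of_nonneg_left (h4.trans ?_) hnn
        exact mul_le_mul_of_nonneg_left h3 (by positivity)
    _ = R * ε₂ := by rw [hR]; ring
    _ ≤ δ := h2c

/-- the value with the cells `u` is not much below the mean -/
lemma env_u (hM : Stmt_MCD) (hL : Stmt_LIP) (hk : 2 ≤ k) {ε δ : ℝ} (hε : 0 < ε) (hδ : 0 < δ)
    (B : ℕ) (hB : 1 ≤ B) :
    ∀ᶠ s : ℕ in atTop, ∀ (o : Fin k) (θ : ℝ), 0 ≤ θ → θ ≤ thm k s → ∀ N b : ℕ,
      AV k s o θ B N b (fun x₁ u x₂ y =>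
        ind ((L (x₁ ++ u ++ x₂) y : ℝ) ≤ Dm k (B * s) x₁ x₂ y - ε * s)) ≤ δ := by
  have hk0 : 0 < k := by omega
  have hB' : (1 : ℝ) ≤ B := by exact_mod_cast hB
  have h1 : Tendsto (fun s : ℕ => 2 * Real.exp (-(2 * ε ^ 2 / B * s))) atTop (𝓝 (2 * 0)) := by
    refine Tendsto.const_mul _ ?_
    refine Real.tendsto_exp_neg_atTop_nhds_zero.comp ?_
    exact (tendsto_natCast_atTop_atTop).const_mul_atTop (by positivity)
  rw [mul_zero] at h1
  filter_upwards [dens_ev hk B (ε := 1) one_pos, h1.eventually_lt_const hδ, eventually_ge_atTop 1]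
    with s hs1 hs2 hs3 o θ h0 hθ N b
  have hs' : (1 : ℝ) ≤ s := by exact_mod_cast hs3
  rw [AV_swap]
  refine (AV_mono hk h0 hθ (Ψ := fun _ _ _ _ => δ) fun x₁ _ x₂ y _ _ _ => ?_).trans
    (AV_const hk δ).le
  have h2 := Exc_gth_le (o := o) hk h0 hθ B (f := fun u =>
    ind ((L (x₁ ++ u ++ x₂) y : ℝ) ≤ Dm k (B * s) x₁ x₂ y - ε * s)) fun _ _ => ind_nonneg _
  refine h2.trans ?_
  have h3 := (hM k (B * s) 0 (fun x _ => (L (x₁ ++ x ++ x₂) y : ℝ)) 1 hk0 one_pos (by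
    rintro x x' _ _ _ _ ⟨l₁, l₂, e, e', rfl, rfl⟩
    have := hL k (x₁ ++ l₁) (l₂ ++ x₂) y e e'
    simpa [List.append_assoc] using this) (by
    rintro x _ _ _ h1 _ ⟨l₁, l₂, e, e', rfl, rfl⟩
    simp at h1) (ε * s) (by positivity)).2
  simp only [Ex_zero] at h3
  have h4 : 2 * (ε * s) ^ 2 / (1 ^ 2 * (((B * s : ℕ) : ℝ) + ((0 : ℕ) : ℝ))) = 2 * ε ^ 2 / B * s := by
    push_cast
    field_simp
    ring
  rw [h4] at h3
  have h5 : (1 + θ) ^ B ≤ 2 := by have := hs1 θ h0 hθ; linarith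
  calc (1 + θ) ^ B * Ex k (B * s) (fun u =>
        ind ((L (x₁ ++ u ++ x₂) y : ℝ) ≤ Dm k (B * s) x₁ x₂ y - ε * s))
      ≤ 2 * Real.exp (-(2 * ε ^ 2 / B * s)) :=
        mul_le_mul h5 h3 (Ex_nonneg fun _ _ => ind_nonneg _) (by norm_num)
    _ ≤ δ := hs2.le

/-- one value of `j'` -/
lemma env_one (hS : Stmt_SHIFT) (hP : Stmt_PLO) (hA : Stmt_PUPA) (hB : Stmt_PUPB)
    {C p q Pl Pu : ℝ} (w : World k C p q Pl Pu) {ε δ : ℝ} (hε : 0 < ε) (hδ : 0 < δ)
    (B j' J : ℕ) :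
    ∀ᶠ s : ℕ in atTop, ∀ (o : Fin k) (θ : ℝ), 0 ≤ θ → θ ≤ thm k s →
    ∀ N : ℕ, NN k s ≤ N + J → N ≤ NN k s + J →
      AV k s o θ 0 N (bb k s) (fun x₁ _ x₂ y =>
        ind (Dm k (B * s) x₁ x₂ y + (if B ≤ j' then Pu else Pl) * ((j' : ℝ) - B) * s + ε * s <
          Dm k (j' * s) x₁ x₂ y)) ≤ δ := by
  have hk := w.hk
  have hU : PUPc k Pu := by
    rcases w.phi.rho_one.eq_or_lt with h | h
    · exact hA k C p q Pl Pu w h.symm
    · exact hB k C p q Pl Pu w h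
  rcases lt_trichotomy B j' with h | h | h
  · have h1 := env_up hS w hU hε hδ B (j' - B) J (by omega)
    filter_upwards [h1] with s hs o θ h0 hθ N hN1 hN2
    have h2 := hs o θ h0 hθ N hN1 hN2
    have e1 : B * s + (j' - B) * s = j' * s := by
      rw [← Nat.add_mul]; congr 1; omega
    rw [e1] at h2
    rw [if_pos h.le]
    have e2 : ((j' - B : ℕ) : ℝ) = j' - B := by push_cast [h.le]; ring
    rw [e2] at h2
    exact h2
  · subst h
    filter_upwards [eventually_ge_atTop 1] with s hs o θ h0 hθ N hN1 hN2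
    have h1 : AV k s o θ 0 N (bb k s) (fun x₁ _ x₂ y =>
        ind (Dm k (B * s) x₁ x₂ y + (if B ≤ B then Pu else Pl) * ((B : ℝ) - B) * s + ε * s <
          Dm k (B * s) x₁ x₂ y)) ≤ AV k s o θ 0 N (bb k s) (fun _ _ _ _ => 0) := by
      refine AV_mono hk h0 hθ fun x₁ _ x₂ y _ _ _ => ?_
      rw [ind_of_not]
      rw [sub_self, mul_zero, zero_mul, add_zero, not_lt]
      have : 0 ≤ ε * s := by positivity
      linarith
    rw [AV_const hk] at h1
    exact h1.trans hδ.le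
  · have h1 := env_down hS hP w hε hδ j' (B - j') J (by omega)
    filter_upwards [h1] with s hs o θ h0 hθ N hN1 hN2
    have h2 := hs o θ h0 hθ N hN1 hN2
    have e1 : j' * s + (B - j') * s = B * s := by
      rw [← Nat.add_mul]; congr 1; omega
    rw [e1] at h2
    rw [if_neg (by omega)]
    have e2 : ((B - j' : ℕ) : ℝ) = B - j' := by push_cast [h.le]; ring
    rw [e2] at h2
    refine le_trans (AV_mono hk h0 hθ fun x₁ _ x₂ y _ _ _ => ind_mono fun h' => ?_) h2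
    nlinarith

theorem stmt_PR (hS : Stmt_SHIFT) (hM : Stmt_MCD) (hL : Stmt_LIP) (hP : Stmt_PLO)
    (hA : Stmt_PUPA) (hB : Stmt_PUPB) : Stmt_PR := by
  intro k C p q Pl Pu w ε hε B J' J
  have hk := w.hk
  have h1 : ∀ᶠ s : ℕ in atTop, ∀ (o : Fin k) (θ : ℝ), 0 ≤ θ → θ ≤ thm k s → ∀ N : ℕ,
      AV k s o θ B N (bb k s) (fun x₁ u x₂ y =>
        ind ((L (x₁ ++ u ++ x₂) y : ℝ) < Dm k (B * s) x₁ x₂ y - ε / 2 * s)) ≤ ε / 2 := by
    rcases Nat.eq_zero_or_pos B with hB0 | hB0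
    · subst hB0
      filter_upwards with s o θ h0 hθ N
      refine (AV_mono hk h0 hθ (Ψ := fun _ _ _ _ => (0 : ℝ)) fun x₁ u x₂ y hu _ _ => ?_).trans
        ((AV_const hk 0).le.trans (by positivity))
      rw [ind_of_not]
      rw [Nat.zero_mul] at hu
      have hu' : u = [] := List.length_eq_zero_iff.mp hu
      subst hu'
      unfold Dm
      rw [Nat.zero_mul, Ex_zero, not_lt]
      have : 0 ≤ ε / 2 * s := by positivity
      linarith
    · filter_upwards [env_u hM hL hk (ε := ε / 2) (δ := ε / 2) (by positivity) (by positivity) B hB0]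
        with s hs o θ h0 hθ N
      exact (AV_mono hk h0 hθ fun _ _ _ _ _ _ _ => ind_mono fun h => h.le).trans
        (hs o θ h0 hθ N (bb k s))
  have h2 : ∀ᶠ s : ℕ in atTop, ∀ j' ∈ Finset.range (J' + 1), ∀ (o : Fin k) (θ : ℝ), 0 ≤ θ →
      θ ≤ thm k s → ∀ N : ℕ, NN k s ≤ N + J → N ≤ NN k s + J →
      AV k s o θ 0 N (bb k s) (fun x₁ _ x₂ y =>
        ind (Dm k (B * s) x₁ x₂ y + (if B ≤ j' then Pu else Pl) * ((j' : ℝ) - B) * s + ε / 2 * s <
          Dm k (j' * s) x₁ x₂ y)) ≤ ε / (2 * (J' + 1)) := by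
    rw [Filter.eventually_all_finset]
    intro j' _
    exact env_one hS hP hA hB w (by positivity) (by positivity) B j' J
  filter_upwards [h1, h2] with s hs1 hs2 o θ h0 hθ N hN1 hN2
  have h3 : AV k s o θ B N (bb k s) (fun x₁ u x₂ y => ind (PRbad k s B J' Pl Pu ε x₁ u x₂ y)) ≤
      AV k s o θ B N (bb k s) (fun x₁ u x₂ y =>
        ind ((L (x₁ ++ u ++ x₂) y : ℝ) < Dm k (B * s) x₁ x₂ y - ε / 2 * s) +
        ∑ j' ∈ Finset.range (J' + 1), ind (Dm k (B * s) x₁ x₂ y +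
          (if B ≤ j' then Pu else Pl) * ((j' : ℝ) - B) * s + ε / 2 * s <
          Dm k (j' * s) x₁ x₂ y)) := by
    refine AV_mono hk h0 hθ fun x₁ u x₂ y _ _ _ => ?_
    refine (ind_le_add (Q := (L (x₁ ++ u ++ x₂) y : ℝ) < Dm k (B * s) x₁ x₂ y - ε / 2 * s)
      (R := ∃ j' ∈ Finset.range (J' + 1), Dm k (B * s) x₁ x₂ y +
          (if B ≤ j' then Pu else Pl) * ((j' : ℝ) - B) * s + ε / 2 * s <
          Dm k (j' * s) x₁ x₂ y) ?_).trans ?_
    · rintro ⟨j', hj', h⟩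
      by_cases h' : (L (x₁ ++ u ++ x₂) y : ℝ) < Dm k (B * s) x₁ x₂ y - ε / 2 * s
      · exact Or.inl h'
      · right
        refine ⟨j', Finset.mem_range.mpr (by omega), ?_⟩
        rw [not_lt] at h'
        have e : (Ex k (j' * s) fun r => (L (x₁ ++ r ++ x₂) y : ℝ)) = Dm k (j' * s) x₁ x₂ y := rfl
        rw [e] at h
        linarith
    · exact add_le_add le_rfl (ind_exists_mem_le _ _)
  refine h3.trans ?_
  rw [AV_add, AV_sum]
  have h4 : ∀ j' ∈ Finset.range (J' + 1), AV k s o θ B N (bb k s) (fun x₁ _ x₂ y =>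
      ind (Dm k (B * s) x₁ x₂ y + (if B ≤ j' then Pu else Pl) * ((j' : ℝ) - B) * s + ε / 2 * s <
          Dm k (j' * s) x₁ x₂ y)) ≤ ε / (2 * (J' + 1)) := by
    intro j' hj'
    rw [AV_const_r hk s o θ B N (bb k s) (fun x₁ x₂ y =>
      ind (Dm k (B * s) x₁ x₂ y + (if B ≤ j' then Pu else Pl) * ((j' : ℝ) - B) * s + ε / 2 * s <
          Dm k (j' * s) x₁ x₂ y))]
    exact hs2 j' hj' o θ h0 hθ N hN1 hN2
  have h5 := Finset.sum_le_sum h4
  rw [Finset.sum_const, Finset.card_range, nsmul_eq_mul] at h5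
  have h6 : ((J' + 1 : ℕ) : ℝ) * (ε / (2 * (J' + 1))) = ε / 2 := by
    push_cast
    field_simp
  rw [h6] at h5
  have h7 := hs1 o θ h0 hθ N
  linarith

end H54

end

end Pool.Agent.LCSV
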