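import Pool.Agent.Work.MP_bec1e1_FIN_h39.ENVT

/-!
# FIN: more environment tools (comparison with uniform rows, insertion of several cells)
-/

set_option autoImplicit false
set_option maxHeartbeats 400000

open Filter Topology
open scoped BigOperators

namespace Pool.Agent.LCSV

open Pool.Agent.LCSE

noncomputable section

namespace H54

variable {k : ℕ}

/-- the tilted density is at least `1/2` -/
lemma half_le_gth (hk : 2 ≤ k) {s : ℕ} {o : Fin k} {θ : ℝ} (h0 : 0 ≤ θ) (hθ : θ ≤ thm k s)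
    (w : List (Fin k)) : 1 / 2 ≤ gth k s o θ w := by
  unfold gth
  have h1 := thm_mul hk hθ
  have h2 : θ * (k : ℝ) ^ s * ind (w = List.replicate s o) ≤ θ * (k : ℝ) ^ s * 1 :=
    mul_le_mul_of_nonneg_left (ind_le_one _) (by positivity)
  linarith

/-- comparison with uniform rows, lower bound -/
lemma Ex_le_Exc_gth (hk : 2 ≤ k) {s : ℕ} {o : Fin k} {θ : ℝ} (h0 : 0 ≤ θ) (hθ : θ ≤ thm k s)
    (T : ℕ) {f : List (Fin k) → ℝ} (hf : ∀ x, x.length = T * s → 0 ≤ f x) :
    Ex k (T * s) f ≤ 2 ^ T * Exc k s (gth k s o θ) T fun l => f l.flatten := by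
  have h3 : Exc k s (fun _ => (1 : ℝ)) T (fun l => f l.flatten) = Ex k (T * s) f :=
    Exs_flatten s T f
  rw [← h3, ← Exc_dens_smul]
  exact Exc_dens_mono (fun _ _ => zero_le_one)
    (fun w _ => by have := half_le_gth (o := o) hk h0 hθ w; linarith) (fun l hl => hf _ hl.flatten_length)

/-- the inserted cells averaged last -/
lemma AV_swap (k s : ℕ) (o : Fin k) (θ : ℝ) (j N b : ℕ)
    (Φ : List (Fin k) → List (Fin k) → List (Fin k) → List (Fin k) → ℝ) :
    AV k s o θ j N b Φ = AV k s o θ 0 N b (fun x₁ _ x₂ y =>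
      Exc k s (gth k s o θ) j fun rs => Φ x₁ rs.flatten x₂ y) := by
  rw [AV_zero]
  unfold AV
  congr 1
  refine Finset.sum_congr rfl fun p _ => ?_
  refine Exc_congr fun xs₁ _ => ?_
  rw [Exc_comm]
  refine Exc_congr fun xs₂ _ => ?_
  rw [Ex_Exc_comm]

/-- functions which do not depend on the inserted cells -/
lemma AV_const_r (hk : 2 ≤ k) (s : ℕ) (o : Fin k) (θ : ℝ) (j N b : ℕ)
    (Φ : List (Fin k) → List (Fin k) → List (Fin k) → ℝ) :
    AV k s o θ j N b (fun x₁ _ x₂ y => Φ x₁ x₂ y) =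
      AV k s o θ 0 N b (fun x₁ _ x₂ y => Φ x₁ x₂ y) := by
  rw [AV_swap]
  simp only [Exc_const (gth_one hk s o θ)]

lemma AV_sum {ι : Type*} (S : Finset ι) (k s : ℕ) (o : Fin k) (θ : ℝ) (j N b : ℕ)
    (Φ : ι → List (Fin k) → List (Fin k) → List (Fin k) → List (Fin k) → ℝ) :
    AV k s o θ j N b (fun x₁ r x₂ y => ∑ i ∈ S, Φ i x₁ r x₂ y) =
      ∑ i ∈ S, AV k s o θ j N b (Φ i) := by
  classical
  induction S using Finset.induction_on with
  | empty =>
    have := AV_const_mul (k := k) (s := s) (o := o) (θ := θ) (j := j) (N := N) (b := b) 0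
      (fun _ _ _ _ => 0)
    simpa using this
  | insert a S ha ih =>
    rw [Finset.sum_insert ha, ← ih, ← AV_add]
    simp only [Finset.sum_insert ha]

/-- the value at a fixed position, as an upper bound for `AV` -/
lemma AV_le_of_forall {s : ℕ} {o : Fin k} {θ : ℝ} {j N b : ℕ}
    {Φ : List (Fin k) → List (Fin k) → List (Fin k) → List (Fin k) → ℝ} {c : ℝ}
    (h : ∀ p ≤ N, (Exc k s (gth k s o θ) p fun xs₁ =>
      Exc k s (gth k s o θ) j fun rs => Exc k s (gth k s o θ) (N - p) fun xs₂ =>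
      Ex k b fun y => Φ xs₁.flatten rs.flatten xs₂.flatten y) ≤ c) : AV k s o θ j N b Φ ≤ c := by
  unfold AV
  rw [div_le_iff₀ (by positivity)]
  refine (Finset.sum_le_sum fun p hp => h p (Nat.lt_succ_iff.mp (Finset.mem_range.mp hp))).trans ?_
  rw [Finset.sum_const, Finset.card_range, nsmul_eq_mul]
  push_cast
  linarith

/-- **insertion**: uniform inserted rows `u` (`a` cells) and `r` (`m` cells) against the environment
with `N + a` cells and `m` inserted ones -/
lemma AV_insert (hS : Stmt_SHIFT) (hk : 2 ≤ k) {s : ℕ} {o : Fin k} {θ : ℝ} (h0 : 0 ≤ θ)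
    (hθ : θ ≤ thm k s) (a m N b : ℕ)
    (Φ : List (Fin k) → List (Fin k) → List (Fin k) → List (Fin k) → ℝ)
    (hΦ : ∀ x₁ r x₂ y, 0 ≤ Φ x₁ r x₂ y) :
    AV k s o θ 0 N b (fun x₁ _ x₂ y => Ex k (a * s) fun u => Ex k (m * s) fun r =>
      Φ (x₁ ++ u) r x₂ y) ≤ 2 ^ (a + m) * (1 + a) * AV k s o θ m (N + a) b Φ := by
  have hg := gth_nn (o := o) hk h0 hθ
  have h1 := hS k s (N + (a + m)) b a m o θ Φ hk h0 hθ (by omega) hΦ
  have e1 : N + (a + m) + 1 - (a + m) = N + 1 := by omega
  have e2 : N + (a + m) - m = N + a := by omega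
  rw [e1, e2] at h1
  have hAV : 0 ≤ AV k s o θ m (N + a) b Φ := AV_nonneg hk h0 hθ hΦ
  have h2 : (∑ p ∈ Finset.range (N + 1), Exc k s (gth k s o θ) p fun xs₁ =>
      Exc k s (gth k s o θ) (N - p) fun xs₂ => Ex k b fun y =>
        Ex k (a * s) fun u => Ex k (m * s) fun r =>
          Φ (xs₁.flatten ++ u) r xs₂.flatten y) ≤
      2 ^ (a + m) * (∑ p ∈ Finset.range (N + 1), Exc k s (gth k s o θ) p fun xs₁ =>
    Exc k s (gth k s o θ) a fun as => Exc k s (gth k s o θ) m fun rs =>
    Exc k s (gth k s o θ) (N + (a + m) - (a + m) - p) fun xs₂ => Ex k b fun y =>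
      Φ (xs₁.flatten ++ as.flatten) rs.flatten xs₂.flatten y) := by
    rw [Finset.mul_sum]
    refine Finset.sum_le_sum fun p _ => ?_
    rw [← Exc_const_mul]
    refine Exc_mono hg fun xs₁ _ => ?_
    have e3 : N + (a + m) - (a + m) - p = N - p := by omega
    rw [e3]
    have e4 : (Exc k s (gth k s o θ) a fun as => Exc k s (gth k s o θ) m fun rs =>
        Exc k s (gth k s o θ) (N - p) fun xs₂ => Ex k b fun y =>
          Φ (xs₁.flatten ++ as.flatten) rs.flatten xs₂.flatten y) =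
        Exc k s (gth k s o θ) (N - p) fun xs₂ => Ex k b fun y =>
          Exc k s (gth k s o θ) a fun as => Exc k s (gth k s o θ) m fun rs =>
            Φ (xs₁.flatten ++ as.flatten) rs.flatten xs₂.flatten y := by
      have e5 : ∀ as : List (List (Fin k)), (Exc k s (gth k s o θ) m fun rs =>
          Exc k s (gth k s o θ) (N - p) fun xs₂ => Ex k b fun y =>
            Φ (xs₁.flatten ++ as.flatten) rs.flatten xs₂.flatten y) =
          Exc k s (gth k s o θ) (N - p) fun xs₂ => Ex k b fun y =>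
            Exc k s (gth k s o θ) m fun rs =>
            Φ (xs₁.flatten ++ as.flatten) rs.flatten xs₂.flatten y := by
        intro as
        rw [Exc_comm]
        refine Exc_congr fun xs₂ _ => ?_
        rw [Ex_Exc_comm]
      simp only [e5]
      rw [Exc_comm]
      refine Exc_congr fun xs₂ _ => ?_
      rw [Ex_Exc_comm]
    rw [e4, ← Exc_const_mul]
    refine Exc_mono hg fun xs₂ _ => ?_
    rw [← Ex_const_mul]
    refine Ex_mono fun y _ => ?_
    have h3 := Ex_le_Exc_gth (o := o) hk h0 hθ a (f := fun u => Ex k (m * s) fun r =>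
      Φ (xs₁.flatten ++ u) r xs₂.flatten y) fun u _ => Ex_nonneg fun r _ => hΦ _ _ _ _
    refine h3.trans ?_
    rw [pow_add, mul_assoc]
    refine mul_le_mul_of_nonneg_left ?_ (by positivity)
    rw [← Exc_const_mul]
    refine Exc_mono hg fun as _ => ?_
    exact Ex_le_Exc_gth hk h0 hθ m fun r _ => hΦ _ _ _ _
  rw [AV_zero, div_le_iff₀ (by positivity)]
  refine h2.trans ?_
  have h4 : (0 : ℝ) < 2 ^ (a + m) := by positivity
  refine (mul_le_mul_of_nonneg_left h1 h4.le).trans ?_
  push_cast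
  have h5 : ((N : ℝ) + (a + m) - m + 1) ≤ (1 + a) * (N + 1) := by
    have : 0 ≤ (a : ℝ) * N := by positivity
    nlinarith
  calc (2 : ℝ) ^ (a + m) * (((N : ℝ) + (a + m) - m + 1) * AV k s o θ m (N + a) b Φ)
      ≤ 2 ^ (a + m) * (((1 + a) * (N + 1)) * AV k s o θ m (N + a) b Φ) :=
        mul_le_mul_of_nonneg_left (mul_le_mul_of_nonneg_right h5 hAV) h4.le
    _ = _ := by ring

/-! ### words -/

lemma L_insert_le (a r b y : List (Fin k)) :
    L (a ++ r ++ b) y ≤ L (a ++ b) y + r.length := by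
  obtain ⟨g, _, hg⟩ := L_append_split (a ++ r) b y
  obtain ⟨h, _, hh⟩ := L_append_split a r (y.take g)
  rw [hg, hh]
  have h1 : L r ((y.take g).drop h) ≤ r.length := L_le_left _ _
  have h2 : L a ((y.take g).take h) ≤ L a (y.take g) :=
    L_mono (List.Sublist.refl _) (List.take_sublist _ _)
  have h3 := L_append_ge a b (y.take g) (y.drop g)
  rw [List.take_append_drop] at h3
  omega

lemma L_le_insert (a r b y : List (Fin k)) : L (a ++ b) y ≤ L (a ++ r ++ b) y := by
  apply L_mono _ (List.Sublist.refl _)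
  rw [List.append_assoc]
  exact (List.Sublist.refl a).append (List.sublist_append_right _ _)

end H54

end

end Pool.Agent.LCSV
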